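import Pool.Agent.RTO.Defs

/-!
# Matrices with degrees
-/

set_option autoImplicit false

namespace Pool.Agent.RTO

open Matrix

section deg

variable {R I J K : Type} [Ring R] {a : I → ℤ} {b : J → ℤ} {c : K → ℤ}

theorem HasDeg.mul [Fintype J] {m n : ℤ} {M : Matrix I J R} {N : Matrix J K R} (hM : HasDeg a b m M)
    (hN : HasDeg b c n N) : HasDeg a c (m + n) (M * N) := by
  intro i k hik
  rw [Matrix.mul_apply]
  refine Finset.sum_eq_zero fun j _ => ?_
  by_cases h1 : b j = a i + m
  · have : c k ≠ b j + n := fun h => hik (by rw [h, h1]; ring)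
    rw [hN j k this, mul_zero]
  · rw [hM i j h1, zero_mul]

theorem HasDeg.add {m : ℤ} {M N : Matrix I J R} (hM : HasDeg a b m M) (hN : HasDeg a b m N) :
    HasDeg a b m (M + N) := by
  intro i j h
  rw [Matrix.add_apply, hM i j h, hN i j h, add_zero]

theorem HasDeg.sub {m : ℤ} {M N : Matrix I J R} (hM : HasDeg a b m M) (hN : HasDeg a b m N) :
    HasDeg a b m (M - N) := by
  intro i j h
  rw [Matrix.sub_apply, hM i j h, hN i j h, sub_zero]

theorem HasDeg.neg {m : ℤ} {M : Matrix I J R} (hM : HasDeg a b m M) : HasDeg a b m (-M) := by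
  intro i j h
  rw [Matrix.neg_apply, hM i j h, neg_zero]

theorem HasDeg.one [DecidableEq I] : HasDeg a a 0 (1 : Matrix I I R) := by
  intro i j h
  rw [Matrix.one_apply_ne]
  rintro rfl
  exact h (by ring)

theorem HasDeg.zero {m : ℤ} : HasDeg a b m (0 : Matrix I J R) := fun _ _ _ => rfl

theorem Cx.hasDeg [Fintype I] (C : Cx R I) : HasDeg C.deg C.deg (-1) C.d := by
  intro i j h
  refine C.low i j fun h1 => h ?_
  rw [h1]; ring

theorem HasDeg.pow [Fintype I] [DecidableEq I] {m : ℤ} {M : Matrix I I R} (hM : HasDeg a a m M) (n : ℕ) :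
    HasDeg a a (n * m) (M ^ n) := by
  induction n with
  | zero => rw [pow_zero]; simpa using HasDeg.one
  | succ n ih =>
    rw [pow_succ]
    have := ih.mul hM
    convert this using 1
    push_cast; ring

/-- matrices of positive degree are nilpotent -/
theorem HasDeg.nilpotent [Fintype I] [DecidableEq I] {m : ℤ} {M : Matrix I I R} (hM : HasDeg a a m M)
    (hm : 0 < m) : IsNilpotent M := by
  refine ⟨(∑ i, (a i).natAbs) + (∑ i, (a i).natAbs) + 1, ?_⟩
  refine Matrix.ext fun i j => hM.pow _ i j ?_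
  have h1 : (a i).natAbs ≤ ∑ i, (a i).natAbs :=
    Finset.single_le_sum (f := fun i => (a i).natAbs) (fun _ _ => Nat.zero_le _) (Finset.mem_univ i)
  have h2 : (a j).natAbs ≤ ∑ i, (a i).natAbs :=
    Finset.single_le_sum (f := fun i => (a i).natAbs) (fun _ _ => Nat.zero_le _) (Finset.mem_univ j)
  generalize ∑ i, (a i).natAbs = B at h1 h2
  intro h3
  have h4 : ((B + B + 1 : ℕ) : ℤ) ≤ ((B + B + 1 : ℕ) : ℤ) * m := by
    have : (0 : ℤ) ≤ ((B + B + 1 : ℕ) : ℤ) := by positivity
    nlinarith
  push_cast at h3 h4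
  omega

end deg

section comm

variable {R I O : Type} [CommRing R] [Fintype O] [DecidableEq O]

/-- unitriangular matrices -/
theorem det_unitri (b : O → ℤ) (M : Matrix O O R) (h : ∀ i j, b j ≤ b i → M i j = (1 : Matrix O O R) i j) :
    M.det = 1 := by
  have hM : M.BlockTriangular b := by
    intro i j hij
    rw [h i j hij.le, Matrix.one_apply_ne]
    rintro rfl
    exact lt_irrefl _ hij
  rw [hM.det]
  refine Finset.prod_eq_one fun k _ => ?_
  have : M.toSquareBlock b k = 1 := by
    refine Matrix.ext fun i j => ?_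
    rw [Matrix.toSquareBlock_def, Matrix.of_apply, h _ _ (by rw [i.2, j.2]), Matrix.one_apply,
      Matrix.one_apply]
    simp only [Subtype.ext_iff]
  rw [this, Matrix.det_one]

end comm

section frames

variable {R I O : Type} [Ring R] {a : I → ℤ} {E : O ⊕ O ≃ I}

theorem IsNumbering.odd_ne (hE : IsNumbering a E) {m : ℤ} (hm : Even m) (o p : O) :
    a (E (Sum.inr p)) ≠ a (E (Sum.inl o)) + m ∧ a (E (Sum.inl o)) ≠ a (E (Sum.inr p)) + m := by
  have h1 := (hE o).1
  have h2 := (hE p).2
  constructor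
  · intro h
    rw [h] at h2
    exact (Int.not_even_iff_odd.2 (h1.add_even hm)) h2
  · intro h
    rw [h] at h1
    exact (Int.not_odd_iff_even.2 (h2.add hm)) h1

theorem IsNumbering.even_ne (hE : IsNumbering a E) {m : ℤ} (hm : Odd m) (o p : O) :
    a (E (Sum.inl p)) ≠ a (E (Sum.inl o)) + m ∧ a (E (Sum.inr p)) ≠ a (E (Sum.inr o)) + m := by
  have h1 := (hE o).1
  have h2 := (hE p).1
  have h3 := (hE o).2
  have h4 := (hE p).2
  constructor
  · intro h
    rw [h] at h2
    exact (Int.not_odd_iff_even.2 (h1.add_odd hm)) h2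
  · intro h
    rw [h] at h4
    exact (Int.not_even_iff_odd.2 (h3.add_odd hm)) h4

/-- the block from odd to even -/
def oe (E : O ⊕ O ≃ I) (A : Matrix I I R) : Matrix O O R :=
  A.submatrix (fun o => E (Sum.inl o)) (fun o => E (Sum.inr o))

/-- the block from even to odd -/
def eo (E : O ⊕ O ≃ I) (A : Matrix I I R) : Matrix O O R :=
  A.submatrix (fun o => E (Sum.inr o)) (fun o => E (Sum.inl o))

/-- the block from odd to odd -/
def oo (E : O ⊕ O ≃ I) (A : Matrix I I R) : Matrix O O R :=
  A.submatrix (fun o => E (Sum.inl o)) (fun o => E (Sum.inl o))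

/-- the block from even to even -/
def ee (E : O ⊕ O ≃ I) (A : Matrix I I R) : Matrix O O R :=
  A.submatrix (fun o => E (Sum.inr o)) (fun o => E (Sum.inr o))

theorem sub_eq (E : O ⊕ O ≃ I) (A : Matrix I I R) :
    A.submatrix E E = fromBlocks (oo E A) (oe E A) (eo E A) (ee E A) := by
  refine Matrix.ext fun x y => ?_
  rcases x with x | x <;> rcases y with y | y <;> rfl

theorem oo_eq (hE : IsNumbering a E) {m : ℤ} (hm : Odd m) {A : Matrix I I R} (hA : HasDeg a a m A) :
    oo E A = 0 :=
  Matrix.ext fun o p => hA _ _ (hE.even_ne hm o p).1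

theorem ee_eq (hE : IsNumbering a E) {m : ℤ} (hm : Odd m) {A : Matrix I I R} (hA : HasDeg a a m A) :
    ee E A = 0 :=
  Matrix.ext fun o p => hA _ _ (hE.even_ne hm o p).2

theorem oe_eq (hE : IsNumbering a E) {m : ℤ} (hm : Even m) {A : Matrix I I R} (hA : HasDeg a a m A) :
    oe E A = 0 :=
  Matrix.ext fun o p => hA _ _ (hE.odd_ne hm o p).1

theorem eo_eq (hE : IsNumbering a E) {m : ℤ} (hm : Even m) {A : Matrix I I R} (hA : HasDeg a a m A) :
    eo E A = 0 :=
  Matrix.ext fun o p => hA _ _ (hE.odd_ne hm p o).2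

end frames

end Pool.Agent.RTO
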