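import Pool.Agent.RTO.Tors

/-!
# The mapping cone
-/

set_option autoImplicit false

namespace Pool.Agent.RTO

open Matrix

section ring

variable {R I J : Type} [Ring R] [Fintype I] [DecidableEq I] [Fintype J] [DecidableEq J]
  {a : I → ℤ} {b : J → ℤ}

/-- the degrees of the cone -/
def ca (a : I → ℤ) (b : J → ℤ) : I ⊕ J → ℤ := Sum.elim (fun i => a i + 1) b

/-- the differential of the cone -/
def dc (D : Matrix I I R) (D' : Matrix J J R) (f : Matrix I J R) : Matrix (I ⊕ J) (I ⊕ J) R :=
  fromBlocks (-D) f 0 D'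

omit [Fintype I] [DecidableEq I] [Fintype J] [DecidableEq J] in
theorem hasDeg_blocks {m : ℤ} {A : Matrix I I R} {B : Matrix I J R} {C : Matrix J I R}
    {D : Matrix J J R} (hA : HasDeg a a m A) (hB : HasDeg a b (m + 1) B) (hC : HasDeg b a (m - 1) C)
    (hD : HasDeg b b m D) : HasDeg (ca a b) (ca a b) m (fromBlocks A B C D) := by
  rintro (i | i) (j | j) h
  · exact hA i j fun h1 => h (by show a j + 1 = a i + 1 + m; rw [h1]; ring)
  · exact hB i j fun h1 => h (by show b j = a i + 1 + m; rw [h1]; ring)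
  · exact hC i j fun h1 => h (by show a j + 1 = b i + m; rw [h1]; ring)
  · exact hD i j fun h1 => h (by show b j = b i + m; rw [h1])

variable {D : Matrix I I R} {D' : Matrix J J R} {f : Matrix I J R} {g : Matrix J I R}
  {h s : Matrix I I R} {k s' : Matrix J J R}

omit [DecidableEq I] [DecidableEq J] [Fintype I] [Fintype J] in
theorem dc_deg (hD : HasDeg a a (-1) D) (hD' : HasDeg b b (-1) D') (hf : HasDeg a b 0 f) :
    HasDeg (ca a b) (ca a b) (-1) (dc D D' f) :=
  hasDeg_blocks hD.neg (by simpa using hf) HasDeg.zero hD'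

omit [DecidableEq I] [DecidableEq J] in
theorem dc_sq (hD : D * D = 0) (hD' : D' * D' = 0) (hf : D * f = f * D') :
    dc D D' f * dc D D' f = 0 := by
  rw [dc, fromBlocks_multiply]
  simp only [Matrix.mul_zero, add_zero, Matrix.zero_mul, zero_add, neg_mul_neg, hD, hD', Matrix.neg_mul,
    hf, neg_add_cancel]
  exact fromBlocks_zero

/-- a contraction of the cone of a homotopy equivalence -/
theorem cone_exists (hD : HasDeg a a (-1) D) (hD' : HasDeg b b (-1) D') (hf : HasDeg a b 0 f)
    (hg : HasDeg b a 0 g) (hh : HasDeg a a 1 h) (hk : HasDeg b b 1 k) (hfD : D * f = f * D')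
    (hgD : D' * g = g * D) (h1 : D * h + h * D = 1 - f * g) (h2 : D' * k + k * D' = 1 - g * f) :
    ∃ S, IsContraction (ca a b) (dc D D' f) S := by
  let φ : Matrix I J R := f * k - h * f
  let S0 : Matrix (I ⊕ J) (I ⊕ J) R := fromBlocks (-h) 0 g k
  let N : Matrix (I ⊕ J) (I ⊕ J) R := fromBlocks 1 (-φ) 0 1
  have hφ : HasDeg a b 1 φ := by
    refine HasDeg.sub ?_ ?_
    · simpa using hf.mul hk
    · simpa using hh.mul hf
  have hφD : D * φ + φ * D' = 0 := by
    show D * (f * k - h * f) + (f * k - h * f) * D' = 0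
    calc D * (f * k - h * f) + (f * k - h * f) * D'
        = D * f * k - D * h * f + f * k * D' - h * (f * D') := by
          rw [Matrix.mul_sub, Matrix.sub_mul]; simp only [Matrix.mul_assoc]; abel
      _ = f * (D' * k + k * D') - (D * h + h * D) * f := by
          rw [← hfD]; rw [hfD]
          simp only [Matrix.mul_add, Matrix.add_mul, Matrix.mul_assoc]
          rw [hfD]; abel
      _ = 0 := by
          rw [h1, h2, Matrix.mul_sub, Matrix.sub_mul]
          simp only [Matrix.mul_one, Matrix.one_mul, Matrix.mul_assoc]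
          abel
  have e0 : dc D D' f * S0 + S0 * dc D D' f = fromBlocks 1 φ 0 1 := by
    show fromBlocks (-D) f 0 D' * fromBlocks (-h) 0 g k +
      fromBlocks (-h) 0 g k * fromBlocks (-D) f 0 D' = _
    rw [fromBlocks_multiply, fromBlocks_multiply, fromBlocks_add]
    congr 1
    · simp only [neg_mul_neg, Matrix.mul_zero, add_zero, Matrix.neg_mul, Matrix.mul_neg, neg_neg]
      calc D * h + f * g + h * D = (D * h + h * D) + f * g := by abel
        _ = 1 := by rw [h1]; abel
    · simp only [Matrix.mul_zero, zero_add, Matrix.neg_mul, Matrix.zero_mul, add_zero]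
      show f * k + -(h * f) = f * k - h * f
      abel
    · simp only [Matrix.zero_mul, zero_add, Matrix.mul_neg, Matrix.mul_zero, add_zero]
      rw [hgD]; abel
    · simp only [Matrix.zero_mul, zero_add]
      calc D' * k + (g * f + k * D') = (D' * k + k * D') + g * f := by abel
        _ = 1 := by rw [h2]; abel
  have e1 : N * dc D D' f = dc D D' f * N := by
    show fromBlocks 1 (-φ) 0 1 * fromBlocks (-D) f 0 D' = fromBlocks (-D) f 0 D' * fromBlocks 1 (-φ) 0 1
    rw [fromBlocks_multiply, fromBlocks_multiply]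
    have e2 : -(φ * D') = D * φ := by rw [neg_eq_iff_add_eq_zero, add_comm]; exact hφD
    congr 1
    · simp
    · simp only [Matrix.one_mul, Matrix.neg_mul, Matrix.mul_neg, neg_neg, Matrix.mul_one, e2]
      abel
    · simp
    · simp
  have e3 : fromBlocks 1 φ 0 1 * N = 1 := by
    show fromBlocks 1 φ 0 1 * fromBlocks 1 (-φ) 0 1 = 1
    rw [fromBlocks_multiply]
    simp only [Matrix.mul_one, Matrix.mul_zero, add_zero, Matrix.one_mul, neg_add_cancel,
      Matrix.zero_mul, Matrix.mul_neg, neg_zero, zero_add]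
    exact fromBlocks_one
  have d0 : HasDeg (ca a b) (ca a b) 1 S0 :=
    hasDeg_blocks hh.neg HasDeg.zero (by simpa using hg) hk
  have dN : HasDeg (ca a b) (ca a b) 0 N :=
    hasDeg_blocks HasDeg.one (by simpa using hφ.neg) HasDeg.zero HasDeg.one
  refine ⟨S0 * N, by simpa using d0.mul dN, ?_⟩
  calc dc D D' f * (S0 * N) + S0 * N * dc D D' f
      = (dc D D' f * S0 + S0 * dc D D' f) * N := by
        rw [add_mul, mul_assoc, mul_assoc, mul_assoc, e1]
    _ = 1 := by rw [e0, e3]

/-- a contraction of the cone of a chain map between contractible complexes -/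
theorem cone_contr (hD : HasDeg a a (-1) D) (hD' : HasDeg b b (-1) D') (hf : HasDeg a b 0 f)
    (hfD : D * f = f * D') (hs : IsContraction a D s) (hs' : IsContraction b D' s') :
    IsContraction (ca a b) (dc D D' f) (fromBlocks (-s) (s * (f * s' - s * f)) 0 s') := by
  have hφD : D * (f * s' - s * f) + (f * s' - s * f) * D' = 0 := by
    calc D * (f * s' - s * f) + (f * s' - s * f) * D'
        = D * f * s' - D * s * f + f * s' * D' - s * (f * D') := by
          rw [Matrix.mul_sub, Matrix.sub_mul]; simp only [Matrix.mul_assoc]; abel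
      _ = f * (D' * s' + s' * D') - (D * s + s * D) * f := by
          rw [← hfD]; rw [hfD]
          simp only [Matrix.mul_add, Matrix.add_mul, Matrix.mul_assoc]
          rw [hfD]; abel
      _ = 0 := by
          rw [hs.2, hs'.2, Matrix.mul_one, Matrix.one_mul, sub_self]
  have hφ : HasDeg a b 1 (f * s' - s * f) := by
    refine HasDeg.sub ?_ ?_
    · simpa using hf.mul hs'.1
    · simpa using hs.1.mul hf
  refine ⟨hasDeg_blocks hs.1.neg ?_ HasDeg.zero hs'.1, ?_⟩
  · have := hs.1.mul hφ
    exact this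
  · generalize hφ' : f * s' - s * f = φ at hφD
    have e2 : φ * D' = -(D * φ) := by rw [eq_neg_iff_add_eq_zero, add_comm]; exact hφD
    show fromBlocks (-D) f 0 D' * fromBlocks (-s) (s * φ) 0 s' +
      fromBlocks (-s) (s * φ) 0 s' * fromBlocks (-D) f 0 D' = 1
    rw [fromBlocks_multiply, fromBlocks_multiply, fromBlocks_add, ← fromBlocks_one]
    congr 1
    · simp only [neg_mul_neg, Matrix.mul_zero, add_zero]
      exact hs.2
    · simp only [Matrix.neg_mul]
      calc -(D * (s * φ)) + f * s' + (-(s * f) + s * φ * D')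
          = (f * s' - s * f) - (D * s * φ - s * (φ * D')) := by
            simp only [Matrix.mul_assoc]; abel
        _ = φ - (D * s + s * D) * φ := by
            rw [hφ', e2, Matrix.add_mul, Matrix.mul_neg, Matrix.mul_assoc s D φ]; abel
        _ = 0 := by rw [hs.2, Matrix.one_mul, sub_self]
    · simp
    · simp only [Matrix.zero_mul, zero_add]
      exact hs'.2

end ring

section comm

variable {R I J O P Q : Type} [CommRing R] [Fintype I] [DecidableEq I] [Fintype J] [DecidableEq J]
  [Fintype O] [DecidableEq O] [Fintype P] [DecidableEq P] [Fintype Q] [DecidableEq Q]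
  {a : I → ℤ} {b : J → ℤ} {E : O ⊕ O ≃ I} {E' : P ⊕ P ≃ J} {EK : Q ⊕ Q ≃ I ⊕ J}
  {D : Matrix I I R} {D' : Matrix J J R} {f : Matrix I J R} {s : Matrix I I R} {s' : Matrix J J R}
  {T : Matrix (I ⊕ J) (I ⊕ J) R}

/-- the numbering of the cone -/
def numc (E : O ⊕ O ≃ I) (E' : P ⊕ P ≃ J) : (O ⊕ P) ⊕ (O ⊕ P) ≃ I ⊕ J :=
  (Equiv.sumSumSumComm O P O P).trans (Equiv.sumCongr ((Equiv.sumComm O O).trans E) E')

omit [Fintype I] [DecidableEq I] [Fintype J] [DecidableEq J] [Fintype O] [DecidableEq O]
  [Fintype P] [DecidableEq P] in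
theorem numc_isNumbering (hE : IsNumbering a E) (hE' : IsNumbering b E') :
    IsNumbering (ca a b) (numc E E') := by
  rintro (o | p)
  · refine ⟨?_, ?_⟩
    · show Odd (a (E (Sum.inr o)) + 1)
      exact (hE o).2.add_one
    · show Even (a (E (Sum.inl o)) + 1)
      exact (hE o).1.add_one
  · exact ⟨(hE' p).1, (hE' p).2⟩

/-- the torsion of the cone -/
theorem tors_cone (hD : HasDeg a a (-1) D) (hDD : D * D = 0) (hD' : HasDeg b b (-1) D')
    (hDD' : D' * D' = 0) (hf : HasDeg a b 0 f) (hfD : D * f = f * D') (hs : IsContraction a D s)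
    (hs' : IsContraction b D' s') (hT : IsContraction (ca a b) (dc D D' f) T) (hE : IsNumbering a E)
    (hE' : IsNumbering b E') (hK : IsNumbering (ca a b) EK) :
    ∃ ε : ℤˣ, tors E' D' s' = ((ε : ℤ) : R) * (tors EK (dc D D' f) T * tors E D s) := by
  have hT2 := cone_contr hD hD' hf hfD hs hs'
  have h1 := tors_indep hK (dc_deg hD hD' hf) (dc_sq hDD hDD' hfD) hT hT2
  obtain ⟨ε, hε⟩ := det_oe_sign hK (numc_isNumbering hE hE')
    (dc D D' f + fromBlocks (-s) (s * (f * s' - s * f)) 0 s')
  have h2 : oe (numc E E') (dc D D' f + fromBlocks (-s) (s * (f * s' - s * f)) 0 s') =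
      fromBlocks (-(eo E (D + s)))
        ((f + s * (f * s' - s * f)).submatrix (fun o => E (Sum.inr o)) (fun p => E' (Sum.inr p))) 0
        (oe E' (D' + s')) := by
    refine Matrix.ext fun x y => ?_
    rcases x with x | x <;> rcases y with y | y
    · show -D (E (Sum.inr x)) (E (Sum.inl y)) + -s (E (Sum.inr x)) (E (Sum.inl y)) =
        -(D (E (Sum.inr x)) (E (Sum.inl y)) + s (E (Sum.inr x)) (E (Sum.inl y)))
      ring
    · rfl
    · show (0 : R) + 0 = 0
      rw [add_zero]
    · rfl
  have h3 : (oe (numc E E') (dc D D' f + fromBlocks (-s) (s * (f * s' - s * f)) 0 s')).det =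
      (-1) ^ Fintype.card O * (eo E (D + s)).det * (oe E' (D' + s')).det := by
    rw [h2, det_fromBlocks_zero₂₁, Matrix.det_neg]
  have h4 := det_mul hE hD hDD hs hs
  have h5 : tors EK (dc D D' f) (fromBlocks (-s) (s * (f * s' - s * f)) 0 s') =
      (oe EK (dc D D' f + fromBlocks (-s) (s * (f * s' - s * f)) 0 s')).det := rfl
  refine ⟨(-1) ^ Fintype.card O * ε, ?_⟩
  rw [h1, h5]
  show (oe E' (D' + s')).det = _ * (_ * (oe E (D + s)).det)
  have h6 : (((((-1) ^ Fintype.card O * ε : ℤˣ)) : ℤ) : R) = (-1) ^ Fintype.card O * ((ε : ℤ) : R) := by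
    push_cast
    simp
  have h7 : ((-1 : R) ^ Fintype.card O) * (-1) ^ Fintype.card O = 1 := by
    rw [← mul_pow]; simp
  rw [h6]
  calc (oe E' (D' + s')).det
      = (((-1 : R) ^ Fintype.card O) * (-1) ^ Fintype.card O) *
        ((oe E (D + s)).det * (eo E (D + s)).det) * (oe E' (D' + s')).det := by rw [h7, h4]; ring
    _ = (-1) ^ Fintype.card O * ((-1) ^ Fintype.card O * (eo E (D + s)).det *
        (oe E' (D' + s')).det) * (oe E (D + s)).det := by ring
    _ = (-1) ^ Fintype.card O * (((ε : ℤ) : R) *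
        (oe EK (dc D D' f + fromBlocks (-s) (s * (f * s' - s * f)) 0 s')).det) *
        (oe E (D + s)).det := by rw [← h3, hε]
    _ = _ := by ring

end comm

end Pool.Agent.RTO
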