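import Mathlib

/-!
# Based complexes and their torsion
-/

set_option autoImplicit false

namespace Pool.Agent.RTO

/-- a finite based free chain complex over the ring `R`: a finite set `I`, the basis, with the degrees of its
elements, and the matrix `d` of the differential, which lowers the degree by one; `d * d = 0` -/
structure Cx (R : Type) [Ring R] (I : Type) [Fintype I] where
  deg : I → ℤ
  d : Matrix I I R
  low : ∀ i j, deg i ≠ deg j + 1 → d i j = 0
  sq : d * d = 0

/-- the matrix `M` has the degree `c` -/
def HasDeg {R I J : Type} [Ring R] (a : I → ℤ) (b : J → ℤ) (c : ℤ) (M : Matrix I J R) : Prop :=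
  ∀ i j, b j ≠ a i + c → M i j = 0

/-- the based complexes `C` and `C'` are chain homotopy equivalent: there are chain maps `f`, `g` and
homotopies `h`, `k` -/
def Cx.Equivalent {R I J : Type} [Ring R] [Fintype I] [Fintype J] [DecidableEq I] [DecidableEq J]
    (C : Cx R I) (C' : Cx R J) : Prop :=
  ∃ (f : Matrix I J R) (g : Matrix J I R) (h : Matrix I I R) (k : Matrix J J R),
    HasDeg C.deg C'.deg 0 f ∧ HasDeg C'.deg C.deg 0 g ∧ HasDeg C.deg C.deg 1 h ∧
    HasDeg C'.deg C'.deg 1 k ∧ C.d * f = f * C'.d ∧ C'.d * g = g * C.d ∧
    C.d * h + h * C.d = 1 - f * g ∧ C'.d * k + k * C'.d = 1 - g * f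

/-- `s` is a contraction of the complex with the differential `d`: `s` has the degree `1` and
`d s + s d = 1` -/
def IsContraction {R I : Type} [Ring R] [Fintype I] [DecidableEq I] (deg : I → ℤ)
    (d s : Matrix I I R) : Prop :=
  HasDeg deg deg 1 s ∧ d * s + s * d = 1

/-- `E` numbers the basis elements of odd degree, and those of even degree, by the same set `O` -/
def IsNumbering {I O : Type} (deg : I → ℤ) (E : O ⊕ O ≃ I) : Prop :=
  ∀ o, Odd (deg (E (Sum.inl o))) ∧ Even (deg (E (Sum.inr o)))

/-- the torsion of a complex with the contraction `s`: the determinant of `d + s` from the part of odd degree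
to the part of even degree; it does not depend on `s`, and up to its sign not on the numbering `E` -/
noncomputable def tors {R I O : Type} [CommRing R] [Fintype O] [DecidableEq O] (E : O ⊕ O ≃ I)
    (d s : Matrix I I R) : R :=
  ((d + s).submatrix (fun o => E (Sum.inl o)) (fun o => E (Sum.inr o))).det

end Pool.Agent.RTO
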