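import Pool.Agent.RTO.Main

/-!
# The torsions of homotopy equivalent complexes
-/

set_option autoImplicit false

namespace Pool.Agent.RTO

open Matrix Pool.Agent.DET

section main

variable {G I J : Type} [Group G] [Fintype I] [DecidableEq I] [Fintype J] [DecidableEq J]

theorem ca_prod (a : I → ℤ) (b : J → ℤ) (ν : Type) (x : (I × ν) ⊕ (J × ν)) :
    ca (fun p : I × ν => a p.1) (fun q : J × ν => b q.1) x =
      ca a b ((Equiv.sumProdDistrib I J ν).symm x).1 := by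
  rcases x with x | x <;> rfl

/-- a numbering over `ℤ[G]` -/
theorem exists_numbering_of {a : I → ℤ} {d s : Matrix I I (MonoidAlgebra ℤ G)}
    (hd : HasDeg a a (-1) d) (hs : IsContraction a d s) :
    ∃ (m : ℕ) (E : Fin m ⊕ Fin m ≃ I), IsNumbering a E := by
  have h1 : IsContraction (fun p : I × Unit => a p.1)
      (rblk (1 : G →* Matrix Unit Unit ℚ) d) (rblk (1 : G →* Matrix Unit Unit ℚ) s) := by
    refine ⟨rblk_deg _ hs.1, ?_⟩
    rw [← rblk_mul, ← rblk_mul, ← rblk_add, hs.2, rblk_one]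
  obtain ⟨m, E, hE⟩ := exists_numbering (rblk_deg (1 : G →* Matrix Unit Unit ℚ) hd) h1
  exact ⟨m, E.trans (Equiv.prodPUnit I), hE⟩

/-- **the torsions of homotopy equivalent complexes** -/
theorem exists_matrix (C : Cx (MonoidAlgebra ℤ G) I) (C' : Cx (MonoidAlgebra ℤ G) J)
    (hC : C.Equivalent C') :
    ∃ (m : ℕ) (X : (Matrix (Fin m) (Fin m) (MonoidAlgebra ℤ G))ˣ),
      ∀ (R ν O P : Type) [CommRing R] [Fintype ν] [DecidableEq ν] [Fintype O] [DecidableEq O]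
        [Fintype P] [DecidableEq P] (ρ : G →* Matrix ν ν R) (E : O ⊕ O ≃ I × ν) (E' : P ⊕ P ≃ J × ν)
        (s : Matrix (I × ν) (I × ν) R) (s' : Matrix (J × ν) (J × ν) R),
        IsNumbering (fun p : I × ν => C.deg p.1) E → IsNumbering (fun p : J × ν => C'.deg p.1) E' →
        IsContraction (fun p : I × ν => C.deg p.1) (rblk ρ C.d) s →
        IsContraction (fun p : J × ν => C'.deg p.1) (rblk ρ C'.d) s' →
        ∃ ε : ℤˣ, tors E' (rblk ρ C'.d) s' =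
          ((ε : ℤ) : R) * ((rblk ρ X.val).det * tors E (rblk ρ C.d) s) := by
  obtain ⟨f, g, h, k, hf, hg, hh, hk, hfD, hgD, h1, h2⟩ := hC
  obtain ⟨S, hS⟩ := cone_exists C.hasDeg C'.hasDeg hf hg hh hk hfD hgD h1 h2
  have hdc : HasDeg (ca C.deg C'.deg) (ca C.deg C'.deg) (-1) (dc C.d C'.d f) :=
    dc_deg C.hasDeg C'.hasDeg hf
  have hdd : dc C.d C'.d f * dc C.d C'.d f = 0 := dc_sq C.sq C'.sq hfD
  obtain ⟨m, EΛ, hEΛ⟩ := exists_numbering_of hdc hS
  obtain ⟨X, hX⟩ := isUnit_oe hEΛ hdc hdd hS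
  refine ⟨m, X, ?_⟩
  intro R ν O P _ _ _ _ _ _ _ ρ E E' s s' hE hE' hs hs'
  let e := (Equiv.sumProdDistrib I J ν).symm
  have hdr := rblk_dc ρ C.d C'.d f
  have hT : IsContraction (ca (fun p : I × ν => C.deg p.1) (fun q : J × ν => C'.deg q.1))
      (dc (rblk ρ C.d) (rblk ρ C'.d) (rblk ρ f)) ((rblk ρ S).submatrix e e) := by
    refine ⟨fun x y hxy => ?_, ?_⟩
    · rw [ca_prod, ca_prod] at hxy
      exact rblk_deg ρ hS.1 (e x) (e y) hxy
    · have h3 : rblk ρ (dc C.d C'.d f) * rblk ρ S + rblk ρ S * rblk ρ (dc C.d C'.d f) = 1 := by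
        rw [← rblk_mul, ← rblk_mul, ← rblk_add, hS.2, rblk_one]
      rw [← hdr]
      calc _ = (rblk ρ (dc C.d C'.d f) * rblk ρ S +
            rblk ρ S * rblk ρ (dc C.d C'.d f)).submatrix e e := by
            rw [Matrix.submatrix_mul_equiv, Matrix.submatrix_mul_equiv]; rfl
        _ = 1 := by rw [h3, Matrix.submatrix_one_equiv]
  let Er : (Fin m × ν) ⊕ (Fin m × ν) ≃ (I × ν) ⊕ (J × ν) :=
    (Equiv.sumProdDistrib (Fin m) (Fin m) ν).symm.trans
      ((Equiv.prodCongr EΛ (Equiv.refl ν)).trans (Equiv.sumProdDistrib I J ν))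
  have hEr : IsNumbering (ca (fun p : I × ν => C.deg p.1) (fun q : J × ν => C'.deg q.1)) Er := by
    rintro ⟨o, x⟩
    rw [ca_prod, ca_prod]
    show Odd (ca C.deg C'.deg ((Equiv.sumProdDistrib I J ν).symm
      ((Equiv.sumProdDistrib I J ν) (EΛ (Sum.inl o), x))).1) ∧
      Even (ca C.deg C'.deg ((Equiv.sumProdDistrib I J ν).symm
      ((Equiv.sumProdDistrib I J ν) (EΛ (Sum.inr o), x))).1)
    rw [Equiv.symm_apply_apply, Equiv.symm_apply_apply]
    exact hEΛ o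
  have hfr : rblk ρ C.d * rblk ρ f = rblk ρ f * rblk ρ C'.d := by
    rw [← rblk_mul, ← rblk_mul, hfD]
  have hDD : rblk ρ C.d * rblk ρ C.d = 0 := by
    rw [← rblk_mul, C.sq]
    refine Matrix.ext fun p q => ?_
    show rh ρ 0 p.2 q.2 = 0
    rw [map_zero]; rfl
  have hDD' : rblk ρ C'.d * rblk ρ C'.d = 0 := by
    rw [← rblk_mul, C'.sq]
    refine Matrix.ext fun p q => ?_
    show rh ρ 0 p.2 q.2 = 0
    rw [map_zero]; rfl
  obtain ⟨ε, hε⟩ := tors_cone (rblk_deg ρ C.hasDeg) hDD (rblk_deg ρ C'.hasDeg) hDD'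
    (rblk_deg ρ hf) hfr hs hs' hT hE hE' hEr
  refine ⟨ε, ?_⟩
  rw [hε]
  congr 2
  unfold tors
  congr 1
  refine Matrix.ext fun x y => ?_
  obtain ⟨o, x⟩ := x
  obtain ⟨p, y⟩ := y
  rw [← hdr]
  show (rblk ρ (dc C.d C'.d f)) (e ((Equiv.sumProdDistrib I J ν) (EΛ (Sum.inl o), x)))
      (e ((Equiv.sumProdDistrib I J ν) (EΛ (Sum.inr p), y))) +
    rblk ρ S (e ((Equiv.sumProdDistrib I J ν) (EΛ (Sum.inl o), x)))
      (e ((Equiv.sumProdDistrib I J ν) (EΛ (Sum.inr p), y))) = _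
  rw [Equiv.symm_apply_apply, Equiv.symm_apply_apply, hX]
  show rh ρ (dc C.d C'.d f (EΛ (Sum.inl o)) (EΛ (Sum.inr p))) x y +
    rh ρ (S (EΛ (Sum.inl o)) (EΛ (Sum.inr p))) x y =
    rh ρ (dc C.d C'.d f (EΛ (Sum.inl o)) (EΛ (Sum.inr p)) + S (EΛ (Sum.inl o)) (EΛ (Sum.inr p))) x y
  rw [map_add]; rfl

end main

end Pool.Agent.RTO
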