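import Pool.Agent.RTO.Cone
import Pool.Agent.DET.Defs

/-!
# The Whitehead torsion and the torsions of the representations
-/

set_option autoImplicit false

namespace Pool.Agent.RTO

open Matrix Pool.Agent.DET

section unit

variable {R I O : Type} [Ring R] [Fintype I] [DecidableEq I] [Fintype O] [DecidableEq O] {a : I → ℤ}
  {E : O ⊕ O ≃ I} {d s : Matrix I I R}

theorem one_sub (E : O ⊕ O ≃ I) : oo E (1 : Matrix I I R) = 1 ∧ ee E (1 : Matrix I I R) = 1 := by
  constructor
  · refine Matrix.ext fun i j => ?_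
    show (1 : Matrix I I R) (E (Sum.inl i)) (E (Sum.inl j)) = _
    rw [Matrix.one_apply, Matrix.one_apply]
    simp only [EmbeddingLike.apply_eq_iff_eq, Sum.inl.injEq]
  · refine Matrix.ext fun i j => ?_
    show (1 : Matrix I I R) (E (Sum.inr i)) (E (Sum.inr j)) = _
    rw [Matrix.one_apply, Matrix.one_apply]
    simp only [EmbeddingLike.apply_eq_iff_eq, Sum.inr.injEq]

/-- the matrix of the Whitehead torsion is invertible -/
theorem isUnit_oe (hE : IsNumbering a E) (hd : HasDeg a a (-1) d) (hdd : d * d = 0)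
    (hs : IsContraction a d s) : IsUnit (oe E (d + s)) := by
  have hss : HasDeg a a 2 (s * s) := by simpa using hs.1.mul hs.1
  obtain ⟨W, hW⟩ := (hss.nilpotent (by norm_num)).isUnit_one_add
  have hA : (d + s) * (d + s) = W.val := by rw [hW]; exact sq_A hdd hs.2
  have w1 : oe E W.val = 0 := by
    rw [hW, oe_add, oe_eq hE (by decide) HasDeg.one, oe_eq hE (by decide) hss, add_zero]
  have w2 : eo E W.val = 0 := by
    rw [hW, eo_add, eo_eq hE (by decide) HasDeg.one, eo_eq hE (by decide) hss, add_zero]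
  have h1 : oe E (d + s) * eo E (d + s) = oo E W.val := by
    rw [← hA, oo_mul, oo_A hE hd hs.1, Matrix.zero_mul, zero_add]
  have h2 : eo E (d + s) * oe E (d + s) = ee E W.val := by
    rw [← hA, ee_mul, ee_A hE hd hs.1, Matrix.zero_mul, add_zero]
  have h3 : oo E W.val * oo E (W⁻¹).val = 1 := by
    have := oo_mul E W.val (W⁻¹).val
    rw [Units.mul_inv, (one_sub E).1, w1, Matrix.zero_mul, add_zero] at this
    exact this.symm
  have h4 : ee E (W⁻¹).val * ee E W.val = 1 := by
    have := ee_mul E (W⁻¹).val W.val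
    rw [Units.inv_mul, (one_sub E).2, w1, Matrix.mul_zero, zero_add] at this
    exact this.symm
  have h5 : oe E (d + s) * (eo E (d + s) * oo E (W⁻¹).val) = 1 := by
    rw [← mul_assoc, h1, h3]
  have h6 : (ee E (W⁻¹).val * eo E (d + s)) * oe E (d + s) = 1 := by
    rw [mul_assoc, h2, h4]
  have h7 : ee E (W⁻¹).val * eo E (d + s) = eo E (d + s) * oo E (W⁻¹).val :=
    left_inv_eq_right_inv h6 h5
  exact ⟨⟨oe E (d + s), eo E (d + s) * oo E (W⁻¹).val, h5, by rw [← h7]; exact h6⟩, rfl⟩

end unit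

section card

variable {I : Type} [Fintype I] [DecidableEq I] {a : I → ℤ}

/-- contractible complexes have the Euler characteristic zero -/
theorem card_eq {d s : Matrix I I ℚ} (hd : HasDeg a a (-1) d) (hs : IsContraction a d s) :
    Fintype.card {i // Odd (a i)} = Fintype.card {i // ¬Odd (a i)} := by
  classical
  let e : I → ℚ := fun i => if Odd (a i) then -1 else 1
  have h1 : diagonal e * d = -(d * diagonal e) := by
    refine Matrix.ext fun i j => ?_
    rw [Matrix.diagonal_mul, Matrix.neg_apply, Matrix.mul_diagonal]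
    by_cases h : a j = a i + -1
    · have h2 : e i = -e j := by
        show (if Odd (a i) then (-1 : ℚ) else 1) = -(if Odd (a j) then (-1 : ℚ) else 1)
        by_cases h3 : Odd (a i)
        · have h4 : ¬Odd (a j) := by
            rw [h, Int.not_odd_iff_even]
            exact h3.add_odd (by decide)
          rw [if_pos h3, if_neg h4]
        · have h4 : Odd (a j) := by
            rw [h]
            exact (Int.not_odd_iff_even.1 h3).add_odd (by decide)
          rw [if_neg h3, if_pos h4, neg_neg]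
      rw [h2]; ring
    · rw [hd i j h, mul_zero, zero_mul, neg_zero]
  have h2 : (diagonal e * (d * s + s * d)).trace = 0 := by
    rw [mul_add, Matrix.trace_add, ← mul_assoc, h1, ← mul_assoc, Matrix.trace_mul_comm (diagonal e * s) d,
      ← mul_assoc, neg_mul, Matrix.trace_neg, neg_add_cancel]
  rw [hs.2, mul_one, Matrix.trace_diagonal] at h2
  have h3 : ∑ i, e i = (Fintype.card {i // ¬Odd (a i)} : ℚ) - Fintype.card {i // Odd (a i)} := by
    rw [← Fintype.sum_subtype_add_sum_subtype (fun i => Odd (a i)) e]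
    have h4 : ∑ i : {i // Odd (a i)}, e i = -(Fintype.card {i // Odd (a i)} : ℚ) := by
      rw [Finset.sum_congr rfl (fun i _ => if_pos i.2)]
      simp
    have h5 : ∑ i : {i // ¬Odd (a i)}, e i = (Fintype.card {i // ¬Odd (a i)} : ℚ) := by
      rw [Finset.sum_congr rfl (fun i _ => if_neg i.2)]
      simp
    rw [h4, h5]; ring
  rw [h3] at h2
  have h4 : (Fintype.card {i // ¬Odd (a i)} : ℚ) = Fintype.card {i // Odd (a i)} := by linarith
  exact_mod_cast h4.symm

theorem exists_numbering {d s : Matrix I I ℚ} (hd : HasDeg a a (-1) d) (hs : IsContraction a d s) :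
    ∃ (m : ℕ) (E : Fin m ⊕ Fin m ≃ I), IsNumbering a E := by
  classical
  have h := card_eq hd hs
  refine ⟨Fintype.card {i // Odd (a i)}, (Equiv.sumCongr (Fintype.equivFin {i // Odd (a i)}).symm
    ((finCongr h).trans (Fintype.equivFin {i // ¬Odd (a i)}).symm)).trans
    (Equiv.sumCompl (fun i => Odd (a i))), fun o => ?_⟩
  refine ⟨?_, ?_⟩
  · exact ((Fintype.equivFin {i // Odd (a i)}).symm o).2
  · exact Int.not_odd_iff_even.1
      (((finCongr h).trans (Fintype.equivFin {i // ¬Odd (a i)}).symm) o).2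

end card

section rep

variable {G R ν I J K : Type} [Group G] [CommRing R] [Fintype ν] [DecidableEq ν]

/-- the matrix of the blocks `ρ(X i j)` -/
noncomputable def rblk (ρ : G →* Matrix ν ν R) (X : Matrix I J (MonoidAlgebra ℤ G)) :
    Matrix (I × ν) (J × ν) R :=
  Matrix.of fun p q => rh ρ (X p.1 q.1) p.2 q.2

variable (ρ : G →* Matrix ν ν R)

theorem rblk_mul [Fintype J] (X : Matrix I J (MonoidAlgebra ℤ G))
    (Y : Matrix J K (MonoidAlgebra ℤ G)) : rblk ρ (X * Y) = rblk ρ X * rblk ρ Y := by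
  refine Matrix.ext fun p q => ?_
  rw [Matrix.mul_apply, Fintype.sum_prod_type]
  show rh ρ ((X * Y) p.1 q.1) p.2 q.2 = ∑ j, ∑ b, rh ρ (X p.1 j) p.2 b * rh ρ (Y j q.1) b q.2
  rw [Matrix.mul_apply, map_sum, Matrix.sum_apply]
  refine Finset.sum_congr rfl fun j _ => ?_
  rw [map_mul, Matrix.mul_apply]

theorem rblk_add (X Y : Matrix I J (MonoidAlgebra ℤ G)) :
    rblk ρ (X + Y) = rblk ρ X + rblk ρ Y := by
  refine Matrix.ext fun p q => ?_
  show rh ρ (X p.1 q.1 + Y p.1 q.1) p.2 q.2 = rh ρ (X p.1 q.1) p.2 q.2 + rh ρ (Y p.1 q.1) p.2 q.2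
  rw [map_add]; rfl

theorem rblk_one [DecidableEq I] : rblk ρ (1 : Matrix I I (MonoidAlgebra ℤ G)) = 1 := by
  refine Matrix.ext fun p q => ?_
  show rh ρ ((1 : Matrix I I (MonoidAlgebra ℤ G)) p.1 q.1) p.2 q.2 = _
  rw [Matrix.one_apply, Matrix.one_apply]
  by_cases h : p.1 = q.1
  · rw [if_pos h, map_one, Matrix.one_apply]
    simp only [Prod.ext_iff, h, true_and]
  · rw [if_neg h, map_zero, if_neg fun h1 => h (congrArg Prod.fst h1)]
    rfl

theorem rblk_deg {a : I → ℤ} {b : J → ℤ} {m : ℤ} {X : Matrix I J (MonoidAlgebra ℤ G)}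
    (hX : HasDeg a b m X) : HasDeg (fun p : I × ν => a p.1) (fun q : J × ν => b q.1) m
    (rblk ρ X) := by
  intro p q h
  show rh ρ (X p.1 q.1) p.2 q.2 = 0
  rw [hX _ _ h, map_zero]; rfl

/-- the blocks of the cone -/
theorem rblk_dc (D : Matrix I I (MonoidAlgebra ℤ G)) (D' : Matrix J J (MonoidAlgebra ℤ G))
    (f : Matrix I J (MonoidAlgebra ℤ G)) :
    (rblk ρ (dc D D' f)).submatrix (Equiv.sumProdDistrib I J ν).symm
      (Equiv.sumProdDistrib I J ν).symm = dc (rblk ρ D) (rblk ρ D') (rblk ρ f) := by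
  refine Matrix.ext fun x y => ?_
  rcases x with ⟨i, x⟩ | ⟨i, x⟩ <;> rcases y with ⟨j, y⟩ | ⟨j, y⟩
  · show rh ρ (-(D i j)) x y = -(rh ρ (D i j) x y)
    rw [map_neg]; rfl
  · rfl
  · show rh ρ 0 x y = 0
    rw [map_zero]; rfl
  · rfl

end rep

end Pool.Agent.RTO
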