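import Pool.Agent.RTO.Alg

/-!
# The torsion does not depend on the contraction, and up to the sign not on the numbering
-/

set_option autoImplicit false

namespace Pool.Agent.RTO

open Matrix

section mul

variable {R I O : Type} [Ring R] [Fintype I] [Fintype O] (E : O ⊕ O ≃ I) (A B : Matrix I I R)

theorem sub_mul :
    fromBlocks (oo E (A * B)) (oe E (A * B)) (eo E (A * B)) (ee E (A * B)) =
    fromBlocks (oo E A * oo E B + oe E A * eo E B) (oo E A * oe E B + oe E A * ee E B)
      (eo E A * oo E B + ee E A * eo E B) (eo E A * oe E B + ee E A * ee E B) := by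
  rw [← sub_eq, ← Matrix.submatrix_mul_equiv A B E E E, sub_eq, sub_eq, fromBlocks_multiply]

theorem oo_mul : oo E (A * B) = oo E A * oo E B + oe E A * eo E B :=
  (fromBlocks_inj.1 (sub_mul E A B)).1

theorem oe_mul : oe E (A * B) = oo E A * oe E B + oe E A * ee E B :=
  (fromBlocks_inj.1 (sub_mul E A B)).2.1

theorem eo_mul : eo E (A * B) = eo E A * oo E B + ee E A * eo E B :=
  (fromBlocks_inj.1 (sub_mul E A B)).2.2.1

theorem ee_mul : ee E (A * B) = eo E A * oe E B + ee E A * ee E B :=
  (fromBlocks_inj.1 (sub_mul E A B)).2.2.2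

end mul

section contr

variable {R I O : Type} [Ring R] [Fintype I] [DecidableEq I] [Fintype O] [DecidableEq O] {a : I → ℤ}
  {E : O ⊕ O ≃ I} {d s s' : Matrix I I R}

theorem oo_add (A B : Matrix I I R) : oo E (A + B) = oo E A + oo E B := rfl
theorem ee_add (A B : Matrix I I R) : ee E (A + B) = ee E A + ee E B := rfl
theorem eo_add (A B : Matrix I I R) : eo E (A + B) = eo E A + eo E B := rfl
theorem oe_add (A B : Matrix I I R) : oe E (A + B) = oe E A + oe E B := rfl

theorem oo_A (hE : IsNumbering a E) (hd : HasDeg a a (-1) d) (hs : HasDeg a a 1 s) :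
    oo E (d + s) = 0 := by
  rw [oo_add, oo_eq hE (by decide) hd, oo_eq hE (by decide) hs, add_zero]

theorem ee_A (hE : IsNumbering a E) (hd : HasDeg a a (-1) d) (hs : HasDeg a a 1 s) :
    ee E (d + s) = 0 := by
  rw [ee_add, ee_eq hE (by decide) hd, ee_eq hE (by decide) hs, add_zero]

/-- the square of `d + s` -/
theorem sq_A (hdd : d * d = 0) (h : d * s + s * d = 1) : (d + s) * (d + s) = 1 + s * s := by
  rw [add_mul, mul_add, mul_add, hdd, zero_add, ← h]
  abel

/-- the main identity -/
theorem key (hdd : d * d = 0) (h : d * s + s * d = 1) (h' : d * s' + s' * d = 1) :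
    (d + s) * (1 + s * (s' - s)) * (d + s') =
      1 + ((s * (s' - s) + s' * s' + (s * s * (s' - s) - s * (s' - s) * s') * d) +
        (s * (s' - s) * (s' * s') + (s * s * (s' - s) - s * (s' - s) * s') * s')) := by
  set t := s' - s with ht
  have hs' : s' = s + t := by rw [ht]; abel
  have hdt : d * t = -(t * d) := by
    rw [eq_neg_iff_add_eq_zero, ht, mul_sub, _root_.sub_mul]
    calc d * s' - d * s + (s' * d - s * d) = (d * s' + s' * d) - (d * s + s * d) := by abel
      _ = 0 := by rw [h, h', sub_self]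
  have hds : d * s = 1 - s * d := by rw [← h]; abel
  have e1 : (d + s) * (1 + s * t) = (1 + s * t) * (d + s') + (s * s * t - s * t * s') := by
    have e2 : d * (s * t) = t + s * t * d := by
      rw [← mul_assoc, hds, _root_.sub_mul, one_mul, mul_assoc, hdt, mul_neg, sub_neg_eq_add, mul_assoc]
    rw [mul_add, mul_one, add_mul, e2, add_mul, one_mul, mul_add]
    rw [hs']
    rw [show s * (s * t) = s * s * t from (mul_assoc _ _ _).symm]
    abel
  rw [e1, add_mul, mul_assoc (1 + s * t), sq_A hdd h', mul_add (1 + s * t), mul_one, add_mul, one_mul,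
    mul_add (s * s * t - s * t * s')]
  abel

end contr

section comm

variable {R I O : Type} [CommRing R] [Fintype I] [DecidableEq I] [Fintype O] [DecidableEq O] {a : I → ℤ}
  {E : O ⊕ O ≃ I} {d s s' : Matrix I I R}

theorem det_oo (N : Matrix I I R) (h : ∀ i j, a j ≤ a i → N i j = 0) :
    (oo E (1 + N)).det = 1 := by
  refine det_unitri (fun o => a (E (Sum.inl o))) _ fun i j hij => ?_
  show (1 + N) (E (Sum.inl i)) (E (Sum.inl j)) = _
  rw [Matrix.add_apply, h _ _ hij, add_zero, Matrix.one_apply, Matrix.one_apply]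
  simp only [EmbeddingLike.apply_eq_iff_eq, Sum.inl.injEq]

theorem det_ee (N : Matrix I I R) (h : ∀ i j, a j ≤ a i → N i j = 0) :
    (ee E (1 + N)).det = 1 := by
  refine det_unitri (fun o => a (E (Sum.inr o))) _ fun i j hij => ?_
  show (1 + N) (E (Sum.inr i)) (E (Sum.inr j)) = _
  rw [Matrix.add_apply, h _ _ hij, add_zero, Matrix.one_apply, Matrix.one_apply]
  simp only [EmbeddingLike.apply_eq_iff_eq, Sum.inr.injEq]

theorem raise_of {m : ℤ} (hm : 0 < m) {N : Matrix I I R} (h : HasDeg a a m N) (i j : I)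
    (hij : a j ≤ a i) : N i j = 0 := h i j (by omega)

/-- two contractions -/
theorem det_mul (hE : IsNumbering a E) (hd : HasDeg a a (-1) d) (hdd : d * d = 0)
    (hs : IsContraction a d s) (hs' : IsContraction a d s') :
    (oe E (d + s)).det * (eo E (d + s')).det = 1 := by
  have ht : HasDeg a a 1 (s' - s) := hs'.1.sub hs.1
  have hst : HasDeg a a 2 (s * (s' - s)) := by simpa using hs.1.mul ht
  have hss : HasDeg a a 2 (s' * s') := by simpa using hs'.1.mul hs'.1
  have hR : HasDeg a a 3 (s * s * (s' - s) - s * (s' - s) * s') := by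
    refine HasDeg.sub ?_ ?_
    · simpa using (hs.1.mul hs.1).mul ht
    · simpa using hst.mul hs'.1
  have hN2 : HasDeg a a 2 (s * (s' - s) + s' * s' +
      (s * s * (s' - s) - s * (s' - s) * s') * d) := by
    refine (hst.add hss).add ?_
    simpa using hR.mul hd
  have hN4 : HasDeg a a 4 (s * (s' - s) * (s' * s') +
      (s * s * (s' - s) - s * (s' - s) * s') * s') := by
    refine HasDeg.add ?_ ?_
    · simpa using hst.mul hss
    · simpa using hR.mul hs'.1
  have hk := key hdd hs.2 hs'.2
  have h1 : (oo E ((d + s) * (1 + s * (s' - s)) * (d + s'))).det = 1 := by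
    rw [hk]
    refine det_oo (a := a) _ fun i j hij => ?_
    rw [Matrix.add_apply, raise_of (by norm_num) hN2 i j hij, raise_of (by norm_num) hN4 i j hij,
      add_zero]
  have h2 : (ee E (1 + s * (s' - s))).det = 1 :=
    det_ee (a := a) _ fun i j hij => raise_of (by norm_num) hst i j hij
  have h3 : eo E (1 + s * (s' - s)) = 0 := by
    rw [eo_add, eo_eq hE (by decide) (HasDeg.one), eo_eq hE (by decide) hst, add_zero]
  rw [mul_assoc, oo_mul, oo_A hE hd hs.1, Matrix.zero_mul, zero_add, eo_mul, h3, Matrix.zero_mul,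
    zero_add, Matrix.det_mul, Matrix.det_mul, h2, one_mul] at h1
  exact h1

/-- the torsion does not depend on the contraction -/
theorem tors_indep (hE : IsNumbering a E) (hd : HasDeg a a (-1) d) (hdd : d * d = 0)
    (hs : IsContraction a d s) (hs' : IsContraction a d s') : tors E d s = tors E d s' := by
  have h1 := det_mul hE hd hdd hs hs'
  have h2 := det_mul hE hd hdd hs' hs'
  show (oe E (d + s)).det = (oe E (d + s')).det
  calc (oe E (d + s)).det = (oe E (d + s)).det * ((oe E (d + s')).det * (eo E (d + s')).det) := by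
        rw [h2, mul_one]
    _ = ((oe E (d + s)).det * (eo E (d + s')).det) * (oe E (d + s')).det := by ring
    _ = (oe E (d + s')).det := by rw [h1, one_mul]

end comm

section sign

variable {R I O P : Type} [CommRing R] [Fintype O] [DecidableEq O] [Fintype P] [DecidableEq P]
  {a : I → ℤ} {E : O ⊕ O ≃ I} {E' : P ⊕ P ≃ I}

theorem exists_inl (hE : IsNumbering a E) (hE' : IsNumbering a E') (p : P) :
    ∃ o : O, E (Sum.inl o) = E' (Sum.inl p) := by
  rcases h : E.symm (E' (Sum.inl p)) with o | o
  · exact ⟨o, by rw [← h, Equiv.apply_symm_apply]⟩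
  · exfalso
    have h1 := (hE o).2
    rw [← h, Equiv.apply_symm_apply] at h1
    exact (Int.not_even_iff_odd.2 (hE' p).1) h1

theorem exists_inr (hE : IsNumbering a E) (hE' : IsNumbering a E') (p : P) :
    ∃ o : O, E (Sum.inr o) = E' (Sum.inr p) := by
  rcases h : E.symm (E' (Sum.inr p)) with o | o
  · exfalso
    have h1 := (hE o).1
    rw [← h, Equiv.apply_symm_apply] at h1
    exact (Int.not_odd_iff_even.2 (hE' p).2) h1
  · exact ⟨o, by rw [← h, Equiv.apply_symm_apply]⟩

theorem exists_equiv_inl (hE : IsNumbering a E) (hE' : IsNumbering a E') :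
    ∃ σ : P ≃ O, ∀ p, E (Sum.inl (σ p)) = E' (Sum.inl p) := by
  choose f hf using exists_inl hE hE'
  choose g hg using exists_inl hE' hE
  refine ⟨⟨f, g, fun p => ?_, fun o => ?_⟩, hf⟩
  · exact Sum.inl_injective (E'.injective ((hg _).trans (hf p)))
  · exact Sum.inl_injective (E.injective ((hf _).trans (hg o)))

theorem exists_equiv_inr (hE : IsNumbering a E) (hE' : IsNumbering a E') :
    ∃ σ : P ≃ O, ∀ p, E (Sum.inr (σ p)) = E' (Sum.inr p) := by
  choose f hf using exists_inr hE hE'
  choose g hg using exists_inr hE' hE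
  refine ⟨⟨f, g, fun p => ?_, fun o => ?_⟩, hf⟩
  · exact Sum.inr_injective (E'.injective ((hg _).trans (hf p)))
  · exact Sum.inr_injective (E.injective ((hf _).trans (hg o)))

/-- another numbering -/
theorem det_oe_sign (hE : IsNumbering a E) (hE' : IsNumbering a E') (A : Matrix I I R) :
    ∃ ε : ℤˣ, (oe E' A).det = ((ε : ℤ) : R) * (oe E A).det := by
  obtain ⟨σ, hσ⟩ := exists_equiv_inl hE hE'
  obtain ⟨τ, hτ⟩ := exists_equiv_inr hE hE'
  refine ⟨Equiv.Perm.sign (τ.symm.trans σ), ?_⟩
  have h1 : oe E' A = (oe E A).submatrix σ τ := by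
    refine Matrix.ext fun p q => ?_
    show A (E' (Sum.inl p)) (E' (Sum.inr q)) = A (E (Sum.inl (σ p))) (E (Sum.inr (τ q)))
    rw [hσ, hτ]
  have h2 : (oe E A).submatrix σ τ =
      (((oe E A).submatrix (τ.symm.trans σ) id).submatrix τ τ) := by
    refine Matrix.ext fun p q => ?_
    simp [Matrix.submatrix_apply]
  rw [h1, h2, Matrix.det_submatrix_equiv_self, Matrix.det_permute]

end sign

end Pool.Agent.RTO
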